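import Mathlib

/-! # Recursions `a (n + 1) = |a n - gcd (a n, f (n + 1))|` -/

set_option autoImplicit false

namespace Pool.Agent.R892.GC

/-- a run without nontrivial gcd -/
theorem run (f a : ℕ → ℕ) (k l : ℕ) (hkl : k ≤ l)
    (H : ∀ n, k ≤ n → n < l → a (n + 1) = a n - Nat.gcd (a n) (f (n + 1)))
    (hpos : ∀ n, k ≤ n → n < l → 0 < a n)
    (h1 : ∀ n, k ≤ n → n < l → Nat.gcd (a n) (f (n + 1)) = 1) :
    a l + l = a k + k := by
  induction l, hkl using Nat.le_induction with
  | base => rfl
  | succ l hl ih =>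
    have e := ih (fun n h1 h2 => H n h1 (by omega)) (fun n h1 h2 => hpos n h1 (by omega))
      (fun n h3 h2 => h1 n h3 (by omega))
    have h2 := H l hl (by omega)
    have h3 := hpos l hl (by omega)
    rw [h1 l hl (by omega)] at h2
    omega

theorem per (f : ℕ → ℕ) (hf : ∀ r x, r.Prime → 1 ≤ x → (r ∣ f (x + r) ↔ r ∣ f x)) (r : ℕ)
    (hr : r.Prime) (x t : ℕ) (hx : 1 ≤ x) : r ∣ f (x + r * t) ↔ r ∣ f x := by
  induction t with
  | zero => simp
  | succ t ih =>
    rw [Nat.mul_succ, ← add_assoc, hf r (x + r * t) hr (by omega), ih]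

/-- **the main inequality** -/
theorem core (f a : ℕ → ℕ) (hf : ∀ r x, r.Prime → 1 ≤ x → (r ∣ f (x + r) ↔ r ∣ f x))
    (z' r : ℕ) (hr : r.Prime) (hrz : r ∣ f (z' + 1)) (hz : a z' = 0) (d : ℕ) :
    ∀ k, z' - k = d → k < z' →
      (∀ n, k ≤ n → n < z' → a (n + 1) = a n - Nat.gcd (a n) (f (n + 1))) →
      (∀ n, k ≤ n → n < z' → 0 < a n) → ¬ 2 ∣ f (a k + k + 1) →
      3 * (z' - k) + 4 * (z' + 1) + 3 ≤ 4 * (a k + k + 1) + 3 * r + (if 3 ∣ a k then 0 else 1) := by
  induction d using Nat.strong_induction_on with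
  | _ d ih =>
  intro k hd hk H hpos h2
  have hr2 := hr.two_le
  by_cases hall : ∀ n, k ≤ n → n < z' → Nat.gcd (a n) (f (n + 1)) = 1
  · have e := run f a k z' hk.le H hpos hall
    have hlt : z' - k < r := by
      by_contra hcon
      have hn0 : k ≤ z' - r := by omega
      have hn1 : z' - r < z' := by omega
      have e0 := run f a k (z' - r) hn0 (fun n h3 h4 => H n h3 (by omega))
        (fun n h3 h4 => hpos n h3 (by omega)) (fun n h3 h4 => hall n h3 (by omega))
      have e1 : a (z' - r) = r := by omega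
      have e2 := hall (z' - r) hn0 hn1
      have e3 : r ∣ f (z' - r + 1) := by
        rw [← hf r (z' - r + 1) hr (by omega)]
        have : z' - r + 1 + r = z' + 1 := by omega
        rw [this]
        exact hrz
      rw [e1] at e2
      have e4 : r ∣ 1 := by
        rw [← e2]
        exact Nat.dvd_gcd dvd_rfl e3
      have := Nat.le_of_dvd one_pos e4
      omega
    split_ifs <;> omega
  · have hex : ∃ n, k ≤ n ∧ n < z' ∧ Nat.gcd (a n) (f (n + 1)) ≠ 1 := by
      by_contra hcon
      apply hall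
      intro n h3 h4
      by_contra h5
      exact hcon ⟨n, h3, h4, h5⟩
    classical
    obtain ⟨hk1, hz1, hg1⟩ := Nat.find_spec hex
    have hmin : ∀ n, n < Nat.find hex → k ≤ n → n < z' → Nat.gcd (a n) (f (n + 1)) = 1 := by
      intro n h3 h4 h5
      by_contra h6
      exact Nat.find_min hex h3 ⟨h4, h5, h6⟩
    obtain ⟨n1, hn1⟩ : ∃ n1, n1 = Nat.find hex := ⟨_, rfl⟩
    rw [← hn1] at hk1 hz1 hg1 hmin
    have e1 := run f a k n1 hk1 (fun n h3 h4 => H n h3 (by omega))
        (fun n h3 h4 => hpos n h3 (by omega)) (fun n h3 h4 => hmin n h4 h3 (by omega))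
    have hp1 := hpos n1 hk1 hz1
    have hs1 := H n1 hk1 hz1
    obtain ⟨g, hg⟩ : ∃ g, g = Nat.gcd (a n1) (f (n1 + 1)) := ⟨_, rfl⟩
    rw [← hg] at hg1 hs1
    have hga : g ∣ a n1 := by rw [hg]; exact Nat.gcd_dvd_left _ _
    have hgf : g ∣ f (n1 + 1) := by rw [hg]; exact Nat.gcd_dvd_right _ _
    have hgle : g ≤ a n1 := Nat.le_of_dvd hp1 hga
    have hg0 : 0 < g := Nat.pos_of_dvd_of_pos hga hp1
    have hw : ∀ p, p.Prime → p ∣ g → n1 + 1 - k ≤ p := by
      intro p hp hpg
      by_contra hcon
      have hp0 := hp.two_le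
      have hn0 : k ≤ n1 - p := by omega
      have e0 := run f a k (n1 - p) hn0 (fun n h3 h4 => H n h3 (by omega))
        (fun n h3 h4 => hpos n h3 (by omega)) (fun n h3 h4 => hmin n (by omega) h3 (by omega))
      have e2 := hmin (n1 - p) (by omega) hn0 (by omega)
      have e3 : p ∣ f (n1 - p + 1) := by
        rw [← hf p (n1 - p + 1) hp (by omega)]
        have : n1 - p + 1 + p = n1 + 1 := by omega
        rw [this]
        exact hpg.trans hgf
      have e4 : p ∣ a (n1 - p) := by
        have : a (n1 - p) = a n1 + p := by omega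
        rw [this]
        exact dvd_add (hpg.trans hga) dvd_rfl
      have e5 : p ∣ 1 := by
        rw [← e2]
        exact Nat.dvd_gcd e4 e3
      have := Nat.le_of_dvd one_pos e5
      omega
    have hg2 : ¬ 2 ∣ g := by
      intro h3
      apply h2
      obtain ⟨t, ht⟩ := h3.trans hga
      have e2 : a k + k + 1 = n1 + 1 + 2 * t := by omega
      rw [e2, per f hf 2 Nat.prime_two (n1 + 1) t (by omega)]
      exact h3.trans hgf
    have hg3 : 3 ≤ g := by
      by_contra hcon
      have : g = 2 := by omega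
      exact hg2 (by rw [this])
    have hwg : n1 + 1 - k ≤ g :=
      (hw _ (Nat.minFac_prime hg1) (Nat.minFac_dvd g)).trans (Nat.minFac_le hg0)
    have key : 3 * (n1 + 1 - k) + (if 3 ∣ a (n1 + 1) then 0 else 1) + 4 ≤
        4 * g + (if 3 ∣ a k then 0 else 1) := by
      rcases Nat.lt_or_ge g 5 with h5 | h5
      · have hg3' : g = 3 := by
          have : g ≠ 4 := fun h => hg2 (by rw [h]; norm_num)
          omega
        have hw3 := hw 3 Nat.prime_three (by rw [hg3'])
        have hd3 : 3 ∣ a n1 := by rw [← hg3']; exact hga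
        rw [if_pos (by omega : 3 ∣ a (n1 + 1))]
        split_ifs with h6 <;> omega
      · split_ifs <;> omega
    by_cases h0 : a (n1 + 1) = 0
    · have hkz : n1 + 1 = z' := by
        by_contra hcon
        have := hpos (n1 + 1) (by omega) (by omega)
        omega
      have : 0 ≤ (if 3 ∣ a (n1 + 1) then 0 else 1) := Nat.zero_le _
      omega
    · have hkz : n1 + 1 < z' := by
        by_contra hcon
        have : n1 + 1 = z' := by omega
        rw [this] at h0
        exact h0 hz
      have h3 : ¬ 2 ∣ f (a (n1 + 1) + (n1 + 1) + 1) := by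
        intro h4
        apply h2
        obtain ⟨t, ht⟩ : ∃ t, g = 2 * t + 1 := ⟨g / 2, by omega⟩
        have e2 : a k + k + 1 = a (n1 + 1) + (n1 + 1) + 1 + 2 * t := by omega
        rw [e2, per f hf 2 Nat.prime_two _ t (by omega)]
        exact h4
      have h4 := ih (z' - (n1 + 1)) (by omega) (n1 + 1) rfl hkz (fun n h5 h6 => H n (by omega) h6)
        (fun n h5 h6 => hpos n (by omega) h6) h3
      omega

/-- infinitely many zeros -/
theorem zeros (f a : ℕ → ℕ) (N : ℕ)
    (H : ∀ n, N ≤ n → 0 < a n → a (n + 1) = a n - Nat.gcd (a n) (f (n + 1))) (M : ℕ) :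
    ∃ n, M ≤ n ∧ a n = 0 := by
  by_contra hcon
  push Not at hcon
  have h : ∀ t, a (M + N + t) + t ≤ a (M + N) := by
    intro t
    induction t with
    | zero => simp
    | succ t ih =>
      have h1 := hcon (M + N + t) (by omega)
      have h2 := H (M + N + t) (by omega) (by omega)
      have h3 : 0 < Nat.gcd (a (M + N + t)) (f (M + N + t + 1)) :=
        Nat.gcd_pos_of_pos_left _ (by omega)
      have h4 : M + N + (t + 1) = M + N + t + 1 := by ring
      rw [h4]
      omega
  have := h (a (M + N) + 1)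
  omega

end Pool.Agent.R892.GC
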