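import Pool.Agent.R892.GC.Core

/-! # Recursions with a general second argument -/

set_option autoImplicit false

namespace Pool.Agent.R892.GC

/-- parity is preserved -/
theorem par (s a : ℕ → ℕ) (z' k : ℕ)
    (hodd : ∀ n, n ≤ z' → n % 2 = 1 → s n % 2 = 1)
    (H : ∀ n, k ≤ n → n < z' → a (n + 1) = a n - Nat.gcd (a n) (s (n + 1)))
    (hpos : ∀ n, k ≤ n → n < z' → 0 < a n) (h2 : (a k + k + 1) % 2 = 1) (l : ℕ) (hkl : k ≤ l)
    (hl : l ≤ z') : (a l + l + 1) % 2 = 1 := by
  induction l, hkl using Nat.le_induction with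
  | base => exact h2
  | succ l hkl ih =>
    have e := ih (by omega)
    have h1 := H l hkl (by omega)
    have h3 := hpos l hkl (by omega)
    obtain ⟨g, hg⟩ : ∃ g, g = Nat.gcd (a l) (s (l + 1)) := ⟨_, rfl⟩
    rw [← hg] at h1
    have hga : g ∣ a l := by rw [hg]; exact Nat.gcd_dvd_left _ _
    have hgs : g ∣ s (l + 1) := by rw [hg]; exact Nat.gcd_dvd_right _ _
    have hgle : g ≤ a l := Nat.le_of_dvd h3 hga
    have hg2 : g % 2 = 1 := by
      by_contra hcon
      have h4 : 2 ∣ g := by omega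
      have h5 : 2 ∣ a l := h4.trans hga
      have h6 : 2 ∣ s (l + 1) := h4.trans hgs
      have h7 := hodd (l + 1) hl (by omega)
      omega
    omega

/-- **the main inequality** -/
theorem coreW (s a ω : ℕ → ℕ) (α β z' t r : ℕ) (hω : ∀ p, p.Prime → p ∣ ω p ∧ 0 < ω p)
    (hper : ∀ p x, p.Prime → x + ω p ≤ z' → p ∣ s (x + ω p) → p ∣ s x)
    (hodd : ∀ n, n ≤ z' → n % 2 = 1 → s n % 2 = 1)
    (hαβ : ∀ g w, g % 2 = 1 → 3 ≤ g → (∀ p, p.Prime → p ∣ g → w ≤ ω p) → β * w ≤ α * (g - 1))
    (hr : r.Prime) (ht0 : 0 < t) (htz : t ≤ z') (hrt : r ∣ t) (hrs : r ∣ s (z' + 1 - t))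
    (hz : a z' = 0) (d : ℕ) :
    ∀ k, z' - k = d → k < z' →
      (∀ n, k ≤ n → n < z' → a (n + 1) = a n - Nat.gcd (a n) (s (n + 1))) →
      (∀ n, k ≤ n → n < z' → 0 < a n) → (a k + k + 1) % 2 = 1 →
      β * (z' - k) + α * (z' + 1) + β ≤ α * (a k + k + 1) + β * t := by
  induction d using Nat.strong_induction_on with
  | _ d ih =>
  intro k hd hk H hpos h2
  have hr2 := hr.two_le
  by_cases hall : ∀ n, k ≤ n → n < z' → Nat.gcd (a n) (s (n + 1)) = 1
  · have e := run s a k z' hk.le H hpos hall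
    have hlt : z' - k + 1 ≤ t := by
      by_contra hcon
      have hn0 : k ≤ z' - t := by omega
      have hn1 : z' - t < z' := by omega
      have e0 := run s a k (z' - t) hn0 (fun n h3 h4 => H n h3 (by omega))
        (fun n h3 h4 => hpos n h3 (by omega)) (fun n h3 h4 => hall n h3 (by omega))
      have e1 : a (z' - t) = t := by omega
      have e2 := hall (z' - t) hn0 hn1
      have e3 : z' - t + 1 = z' + 1 - t := by omega
      rw [e1, e3] at e2
      have e4 : r ∣ 1 := by
        rw [← e2]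
        exact Nat.dvd_gcd hrt hrs
      have := Nat.le_of_dvd one_pos e4
      omega
    have h3 : a k + k + 1 = z' + 1 := by omega
    rw [h3]
    have h4 := Nat.mul_le_mul_left β hlt
    rw [mul_add, mul_one] at h4
    omega
  · have hex : ∃ n, k ≤ n ∧ n < z' ∧ Nat.gcd (a n) (s (n + 1)) ≠ 1 := by
      by_contra hcon
      apply hall
      intro n h3 h4
      by_contra h5
      exact hcon ⟨n, h3, h4, h5⟩
    classical
    obtain ⟨hk1, hz1, hg1⟩ := Nat.find_spec hex
    have hmin : ∀ n, n < Nat.find hex → k ≤ n → n < z' → Nat.gcd (a n) (s (n + 1)) = 1 := by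
      intro n h3 h4 h5
      by_contra h6
      exact Nat.find_min hex h3 ⟨h4, h5, h6⟩
    obtain ⟨n1, hn1⟩ : ∃ n1, n1 = Nat.find hex := ⟨_, rfl⟩
    rw [← hn1] at hk1 hz1 hg1 hmin
    have e1 := run s a k n1 hk1 (fun n h3 h4 => H n h3 (by omega))
        (fun n h3 h4 => hpos n h3 (by omega)) (fun n h3 h4 => hmin n h4 h3 (by omega))
    have hp1 := hpos n1 hk1 hz1
    have hs1 := H n1 hk1 hz1
    obtain ⟨g, hg⟩ : ∃ g, g = Nat.gcd (a n1) (s (n1 + 1)) := ⟨_, rfl⟩
    rw [← hg] at hg1 hs1
    have hga : g ∣ a n1 := by rw [hg]; exact Nat.gcd_dvd_left _ _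
    have hgf : g ∣ s (n1 + 1) := by rw [hg]; exact Nat.gcd_dvd_right _ _
    have hgle : g ≤ a n1 := Nat.le_of_dvd hp1 hga
    have hg0 : 0 < g := Nat.pos_of_dvd_of_pos hga hp1
    have hw : ∀ p, p.Prime → p ∣ g → n1 + 1 - k ≤ ω p := by
      intro p hp hpg
      by_contra hcon
      obtain ⟨hp1, hp0⟩ := hω p hp
      have hn0 : k ≤ n1 - ω p := by omega
      have e0 := run s a k (n1 - ω p) hn0 (fun n h3 h4 => H n h3 (by omega))
        (fun n h3 h4 => hpos n h3 (by omega)) (fun n h3 h4 => hmin n (by omega) h3 (by omega))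
      have e2 := hmin (n1 - ω p) (by omega) hn0 (by omega)
      have e3 : p ∣ s (n1 - ω p + 1) := by
        apply hper p (n1 - ω p + 1) hp (by omega)
        have : n1 - ω p + 1 + ω p = n1 + 1 := by omega
        rw [this]
        exact hpg.trans hgf
      have e4 : p ∣ a (n1 - ω p) := by
        have : a (n1 - ω p) = a n1 + ω p := by omega
        rw [this]
        exact dvd_add (hpg.trans hga) hp1
      have e5 : p ∣ 1 := by
        rw [← e2]
        exact Nat.dvd_gcd e4 e3
      have := Nat.le_of_dvd one_pos e5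
      have := hp.two_le
      omega
    have hg2 : g % 2 = 1 := by
      by_contra hcon
      have h4 : 2 ∣ g := by omega
      have h5 : 2 ∣ a n1 := h4.trans hga
      have h6 : 2 ∣ s (n1 + 1) := h4.trans hgf
      have h7 := hodd (n1 + 1) hz1 (by omega)
      omega
    have key := hαβ g (n1 + 1 - k) hg2 (by omega) hw
    obtain ⟨g', hg'⟩ : ∃ g', g = g' + 1 := ⟨g - 1, by omega⟩
    have hgg : g - 1 = g' := by omega
    rw [hgg] at key
    by_cases h0 : a (n1 + 1) = 0
    · have hkz : n1 + 1 = z' := by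
        by_contra hcon
        have := hpos (n1 + 1) (by omega) (by omega)
        omega
      have e2 : a k + k + 1 = g' + (z' + 1) := by omega
      have e3 : n1 + 1 - k = z' - k := by omega
      rw [e3] at key
      rw [e2, mul_add α g' (z' + 1)]
      have h5 : β * 1 ≤ β * t := Nat.mul_le_mul_left β ht0
      omega
    · have hkz : n1 + 1 < z' := by
        by_contra hcon
        have : n1 + 1 = z' := by omega
        rw [this] at h0
        exact h0 hz
      have h4 := ih (z' - (n1 + 1)) (by omega) (n1 + 1) rfl hkz (fun n h5 h6 => H n (by omega) h6)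
        (fun n h5 h6 => hpos n (by omega) h6) (by omega)
      have e2 : a k + k + 1 = g' + (a (n1 + 1) + (n1 + 1) + 1) := by omega
      have e3 : z' - k = (n1 + 1 - k) + (z' - (n1 + 1)) := by omega
      rw [e2, e3, mul_add α g', mul_add β (n1 + 1 - k)]
      omega

end Pool.Agent.R892.GC
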