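import Pool.Agent.R892.GC.Core

/-! # The two recursions -/

set_option autoImplicit false

namespace Pool.Agent.R892.GC

theorem per_A (m : ℕ) : ∀ r x : ℕ, r.Prime → 1 ≤ x →
    (r ∣ (x + r) * (x + r + 2 * m) ↔ r ∣ x * (x + 2 * m)) := by
  intro r x _ _
  rw [show (x + r) * (x + r + 2 * m) = x * (x + 2 * m) + r * (2 * x + r + 2 * m) by ring]
  exact (Nat.dvd_add_iff_left (dvd_mul_right r _)).symm

theorem per_B (p : ℕ) : ∀ r x : ℕ, r.Prime → 1 ≤ x →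
    (r ∣ (x + r) ^ p - 1 ↔ r ∣ x ^ p - 1) := by
  intro r x hr hx
  have h1 : 1 ≤ x ^ p := Nat.one_le_pow _ _ hx
  have h2 : 1 ≤ (x + r) ^ p := Nat.one_le_pow _ _ (by omega)
  rw [← Nat.modEq_iff_dvd' h1, ← Nat.modEq_iff_dvd' h2]
  have h3 : (x + r) ^ p ≡ x ^ p [MOD r] := (Nat.add_modEq_right).pow p
  exact ⟨fun h => h.trans h3, fun h => h.trans h3.symm⟩

/-- upper bound for the next zero -/
theorem next_le (f a : ℕ → ℕ) (k z' : ℕ) (hk : k ≤ z')
    (H : ∀ n, k ≤ n → n < z' → a (n + 1) = a n - Nat.gcd (a n) (f (n + 1)))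
    (hpos : ∀ n, k ≤ n → n < z' → 0 < a n) : a z' + z' ≤ a k + k := by
  induction z', hk using Nat.le_induction with
  | base => rfl
  | succ l hl ih =>
    have e := ih (fun n h1 h2 => H n h1 (by omega)) (fun n h1 h2 => hpos n h1 (by omega))
    have h2 := H l hl (by omega)
    have h3 := hpos l hl (by omega)
    have h4 : 0 < Nat.gcd (a l) (f (l + 1)) := Nat.gcd_pos_of_pos_left _ h3
    omega

/-- the inequality between consecutive zeros -/
theorem consec (f a : ℕ → ℕ) (hf : ∀ r x, r.Prime → 1 ≤ x → (r ∣ f (x + r) ↔ r ∣ f x))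
    (z z' : ℕ) (hzz : z < z')
    (H : ∀ n, z < n → n < z' → a (n + 1) = a n - Nat.gcd (a n) (f (n + 1)))
    (h1 : a (z + 1) = f (z + 1)) (hf1 : 0 < f (z + 1))
    (hodd : ¬ 2 ∣ f (a (z + 1) + (z + 1) + 1)) (hz' : a z' = 0)
    (hno : ∀ n, z < n → n < z' → a n ≠ 0) :
    z' ≤ f (z + 1) + z + 1 ∧
    ∀ r, r.Prime → r ∣ f (z' + 1) → 7 * z' ≤ 4 * f (z + 1) + 7 * z + 5 + 3 * r := by
  have hk : z + 1 < z' := by
    by_contra hcon
    have : z' = z + 1 := by omega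
    rw [this, h1] at hz'
    omega
  have hpos : ∀ n, z + 1 ≤ n → n < z' → 0 < a n := fun n h2 h3 => Nat.pos_of_ne_zero (hno n (by omega) h3)
  have H' : ∀ n, z + 1 ≤ n → n < z' → a (n + 1) = a n - Nat.gcd (a n) (f (n + 1)) :=
    fun n h2 h3 => H n (by omega) h3
  refine ⟨?_, fun r hr hrz => ?_⟩
  · have := next_le f a (z + 1) z' hk.le H' hpos
    omega
  · have h := core f a hf z' r hr hrz hz' (z' - (z + 1)) (z + 1) rfl hk H' hpos hodd
    have h2 : (if 3 ∣ a (z + 1) then 0 else 1) ≤ 1 := by split_ifs <;> omega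
    omega

/-- a composite number at most `s ^ 2` has a prime factor at most `s` -/
theorem small_factor (q s : ℕ) (hq : 2 ≤ q) (hnp : ¬ q.Prime) (hs : q ≤ s ^ 2) :
    ∃ r, r.Prime ∧ r ∣ q ∧ r ≤ s := by
  refine ⟨q.minFac, Nat.minFac_prime (by omega), Nat.minFac_dvd q, ?_⟩
  have h := Nat.minFac_sq_le_self (by omega) hnp
  exact (Nat.pow_le_pow_iff_left two_ne_zero).1 (h.trans hs)

/-- the previous zero -/
theorem prev_zero (a : ℕ → ℕ) (z0 n : ℕ) (h0 : a z0 = 0) (hn : z0 < n) :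
    ∃ z, z0 ≤ z ∧ z < n ∧ a z = 0 ∧ ∀ l, z < l → l < n → a l ≠ 0 := by
  classical
  have h1 := Nat.findGreatest_spec (P := fun l => a l = 0) (show z0 ≤ n - 1 by omega) h0
  have h2 := Nat.le_findGreatest (P := fun l => a l = 0) (show z0 ≤ n - 1 by omega) h0
  have h3 := Nat.findGreatest_le (P := fun l => a l = 0) (n - 1)
  refine ⟨Nat.findGreatest (fun l => a l = 0) (n - 1), h2, by omega, h1, fun l h4 h5 h6 => ?_⟩
  exact Nat.findGreatest_is_greatest h4 (by omega) h6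

/-- consecutive zeros of `a (n) = |a (n - 1) - gcd (a (n - 1), n (n + 2 m))|` -/
theorem main_A (m : ℕ) (a : ℕ → ℕ)
    (h : ∀ n, 1 ≤ n → a (n + 1) = Int.natAbs ((a n : ℤ) -
      ((Nat.gcd (a n) ((n + 1) * (n + 1 + 2 * m)) : ℕ) : ℤ))) (z z' : ℕ) (hz1 : 1 ≤ z)
    (hz : a z = 0) (hzz : z < z') (hz' : a z' = 0) (hno : ∀ n, z < n → n < z' → a n ≠ 0) :
    z' ≤ (z + 1) * (z + 2 * m + 2) ∧
    (∀ r, r.Prime → r ∣ (z' + 1) * (z' + 2 * m + 1) →
      7 * z' ≤ 4 * ((z + 1) * (z + 2 * m + 1)) + 7 * z + 5 + 3 * r) ∧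
    (4 * z ^ 2 + (8 * m + 18) * z + 11 * m + 15 < 7 * z' →
      (z' + 1).Prime ∧ (z' + 2 * m + 1).Prime) := by
  have hsub : ∀ x g : ℕ, g ≤ x → Int.natAbs ((x : ℤ) - (g : ℤ)) = x - g := by
    intro x g hg
    omega
  have hsub0 : ∀ g : ℕ, Int.natAbs (((0 : ℕ) : ℤ) - (g : ℤ)) = g := by
    intro g
    omega
  have H : ∀ n, z < n → n < z' → a (n + 1) = a n - Nat.gcd (a n) ((fun x => x * (x + 2 * m)) (n + 1)) := by
    intro n h1 h2
    rw [h n (by omega)]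
    exact hsub _ _ (Nat.gcd_le_left _ (Nat.pos_of_ne_zero (hno n h1 h2)))
  have h1 : a (z + 1) = (fun x => x * (x + 2 * m)) (z + 1) := by
    rw [h z hz1, hz, Nat.gcd_zero_left]
    exact hsub0 _
  have hodd : ¬ 2 ∣ (fun x => x * (x + 2 * m)) (a (z + 1) + (z + 1) + 1) := by
    rw [h1]
    simp only
    have e1 : ((z + 1) * (z + 1 + 2 * m) + (z + 1) + 1) % 2 = 1 := by
      rcases Nat.even_or_odd' z with ⟨t, rfl | rfl⟩
      · rw [show (2 * t + 1) * (2 * t + 1 + 2 * m) + (2 * t + 1) + 1 =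
          2 * ((2 * t + 1) * (t + m) + 2 * t + 1) + 1 by ring]
        omega
      · rw [show (2 * t + 1 + 1) * (2 * t + 1 + 1 + 2 * m) + (2 * t + 1 + 1) + 1 =
          2 * ((t + 1) * (2 * t + 1 + 1 + 2 * m) + t + 1) + 1 by ring]
        omega
    rw [Nat.two_dvd_ne_zero, Nat.mul_mod]
    have e2 : ((z + 1) * (z + 1 + 2 * m) + (z + 1) + 1 + 2 * m) % 2 = 1 := by omega
    rw [e1, e2]
  obtain ⟨k1, k2⟩ := consec (fun x => x * (x + 2 * m)) a (per_A m) z z' hzz H h1 (by positivity)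
    hodd hz' hno
  have k1' : z' ≤ (z + 1) * (z + 2 * m + 2) := by
    refine k1.trans (le_of_eq ?_)
    ring
  have k2' : ∀ r, r.Prime → r ∣ (z' + 1) * (z' + 2 * m + 1) →
      7 * z' ≤ 4 * ((z + 1) * (z + 2 * m + 1)) + 7 * z + 5 + 3 * r := by
    intro r hr hrz
    have := k2 r hr (by
      rw [show z' + 1 + 2 * m = z' + 2 * m + 1 by ring]
      exact hrz)
    rw [show z + 1 + 2 * m = z + 2 * m + 1 by ring] at this
    exact this
  refine ⟨k1', k2', fun hbig => ?_⟩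
  have hs : z' + 2 * m + 1 ≤ (z + m + 2) ^ 2 := by nlinarith
  have hfin : ∀ q, 2 ≤ q → q ≤ z' + 2 * m + 1 → q ∣ (z' + 1) * (z' + 2 * m + 1) → q.Prime := by
    intro q hq2 hq3 hq4
    by_contra hnp
    obtain ⟨r, hr, hrq, hrs⟩ := small_factor q (z + m + 2) hq2 hnp (hq3.trans hs)
    have := k2' r hr (hrq.trans hq4)
    nlinarith
  exact ⟨hfin _ (by omega) (by omega) (dvd_mul_right _ _), hfin _ (by omega) le_rfl (dvd_mul_left _ _)⟩

theorem zeros_A (m : ℕ) (a : ℕ → ℕ)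
    (h : ∀ n, 1 ≤ n → a (n + 1) = Int.natAbs ((a n : ℤ) -
      ((Nat.gcd (a n) ((n + 1) * (n + 1 + 2 * m)) : ℕ) : ℤ))) (M : ℕ) : ∃ n, M ≤ n ∧ a n = 0 := by
  refine zeros (fun x => x * (x + 2 * m)) a 1 ?_ M
  intro n h1 h2
  have h3 : Nat.gcd (a n) ((n + 1) * (n + 1 + 2 * m)) ≤ a n := Nat.gcd_le_left _ h2
  rw [h n h1]
  omega

end Pool.Agent.R892.GC
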