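import Pool.Agent.R892.GC.CoreW
import Pool.Agent.R892.GC.Two

/-! # The Goldbach recursion and the triple recursion -/

set_option autoImplicit false

namespace Pool.Agent.R892.GC

/-- from integer sequences to natural numbers -/
theorem conv (u a : ℕ → ℤ) (g : ℕ)
    (h : ∀ n, 2 ≤ n → a n = a (n - 1) - ((Int.gcd (a (n - 1)) (u n) : ℕ) : ℤ)) (h1 : 0 < a 1)
    (hno : ∀ n, 2 ≤ n → n < g → a n ≠ 0) :
    (∀ n, 1 ≤ n → n < g → 0 < a n) ∧ ∀ n, 1 ≤ n → n < g →
      (a (n + 1)).natAbs = (a n).natAbs - Nat.gcd (a n).natAbs (u (n + 1)).natAbs := by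
  have hle : ∀ n, 0 < a n → Int.gcd (a n) (u (n + 1)) ≤ (a n).natAbs := by
    intro n hn
    exact Nat.le_of_dvd (by omega) (Nat.gcd_dvd_left _ _)
  have hpos : ∀ n, 1 ≤ n → n < g → 0 < a n := by
    intro n hn
    induction n, hn using Nat.le_induction with
    | base => exact fun _ => h1
    | succ n hn ih =>
      intro hlt
      have h2 := ih (by omega)
      have h3 := h (n + 1) (by omega)
      rw [Nat.add_sub_cancel] at h3
      have h4 := hle n h2
      have h5 := hno (n + 1) (by omega) hlt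
      omega
  refine ⟨hpos, fun n hn hlt => ?_⟩
  have h2 := hpos n hn hlt
  have h3 := h (n + 1) (by omega)
  rw [Nat.add_sub_cancel] at h3
  have h4 := hle n h2
  have e : Nat.gcd (a n).natAbs (u (n + 1)).natAbs = Int.gcd (a n) (u (n + 1)) := rfl
  rw [e]
  omega

theorem gold (N g : ℕ) (hN : 3 ≤ N) (s b : ℕ → ℕ)
    (hs : ∀ n, n ≤ N → s n = if n % 2 = 0 then n else 2 * N - n) (hb1 : b 1 = N - 2) (hg : 2 ≤ g)
    (hbg : b g = 0) (hpos : ∀ n, 1 ≤ n → n < g → 0 < b n)
    (H : ∀ n, 1 ≤ n → n < g → b (n + 1) = b n - Nat.gcd (b n) (s (n + 1))) :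
    g ≤ N - 1 ∧ ∀ r, r.Prime → r ∣ (g + 1) * (2 * N - g - 1) → 4 * g + 3 ≤ 3 * N + 2 * r := by
  have hgN : g ≤ N - 1 := by
    have := next_le s b 1 g (by omega) H hpos
    omega
  refine ⟨hgN, fun r hr hrd => ?_⟩
  have hr2 := hr.two_le
  obtain ⟨k, hk1, hkg, hodd, hkN, hk2⟩ : ∃ k, 1 ≤ k ∧ k ≤ g ∧ (b k + k + 1) % 2 = 1 ∧
      3 * (b k + k + 1) + k ≤ 3 * N + 1 ∧ (k = g → N = 4) := by
    rcases Nat.even_or_odd' N with ⟨M, hM | hM⟩
    · refine ⟨2, by norm_num, hg, ?_, ?_, ?_⟩ <;>
      · have h1 := H 1 le_rfl (by omega)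
        have h2 := hs 2 (by omega)
        norm_num at h1 h2
        rw [h2, hb1] at h1
        have h3 : Nat.gcd (N - 2) 2 = 2 := by
          apply Nat.gcd_eq_right
          omega
        rw [h3] at h1
        first
          | omega
          | (intro h4; rw [← h4] at hbg; omega)
    · refine ⟨1, le_rfl, by omega, ?_, ?_, ?_⟩ <;> omega
  rcases Nat.lt_or_ge k g with hkg' | hkg'
  · have hO : ∀ n, n ≤ g → n % 2 = 1 → s n % 2 = 1 := by
      intro n h1 h2
      rw [hs n (by omega), if_neg (by omega)]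
      omega
    have hH : ∀ n, k ≤ n → n < g → b (n + 1) = b n - Nat.gcd (b n) (s (n + 1)) :=
      fun n h1 h2 => H n (by omega) h2
    have hP : ∀ n, k ≤ n → n < g → 0 < b n := fun n h1 h2 => hpos n (by omega) h2
    have hgo := par s b g k hO hH hP hodd g hkg le_rfl
    rw [hbg] at hgo
    -- choose t
    obtain ⟨t, ht0, ht2, hrt, htg⟩ : ∃ t, 0 < t ∧ t ≤ 2 * r ∧ r ∣ t ∧ (t ≤ g → r ∣ s (g + 1 - t)) := by
      have hr1 : r ≠ 2 := by
        intro h2
        rw [h2] at hrd
        have h3 : (g + 1) % 2 = 1 := by omega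
        have h4 : (2 * N - g - 1) % 2 = 1 := by omega
        have h5 : ((g + 1) * (2 * N - g - 1)) % 2 = 1 := by rw [Nat.mul_mod, h3, h4]
        omega
      have hro : r % 2 = 1 := by
        rcases hr.eq_two_or_odd with h | h
        · exact absurd h hr1
        · exact h
      rcases (Nat.Prime.dvd_mul hr).1 hrd with h | h
      · refine ⟨r, by omega, by omega, dvd_rfl, fun h1 => ?_⟩
        rw [hs _ (by omega), if_pos (by omega)]
        exact Nat.dvd_sub h dvd_rfl
      · refine ⟨2 * r, by omega, le_rfl, dvd_mul_left _ _, fun h1 => ?_⟩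
        rw [hs _ (by omega), if_neg (by omega)]
        have e : 2 * N - (g + 1 - 2 * r) = (2 * N - g - 1) + 2 * r := by omega
        rw [e]
        exact dvd_add h (dvd_mul_left _ _)
    rcases Nat.lt_or_ge g t with h | h
    · omega
    · have k1 := coreW s b (fun p => 2 * p) 3 1 g t r (fun p hp => ⟨dvd_mul_left _ _, by
        have := hp.two_le
        show 0 < 2 * p
        omega⟩) (fun p x hp hx hpx => by
          have hx' : x + 2 * p ≤ g := hx
          have hpx' : p ∣ s (x + 2 * p) := hpx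
          rw [hs _ (by omega)] at hpx' ⊢
          split_ifs at hpx' with h5
          · rw [if_pos (by omega)]
            exact (Nat.dvd_add_left (dvd_mul_left p 2)).1 hpx'
          · rw [if_neg (by omega)]
            have e : 2 * N - x = (2 * N - (x + 2 * p)) + 2 * p := by omega
            rw [e]
            exact dvd_add hpx' (dvd_mul_left _ _)) hO (fun q w hq1 hq3 hq => by
          have h5 := hq _ (Nat.minFac_prime (by omega)) (Nat.minFac_dvd q)
          have h6 : q.minFac ≤ q := Nat.minFac_le (by omega)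
          have h7 : w ≤ 2 * q.minFac := h5
          omega) hr ht0 h hrt (htg h) hbg (g - k) k rfl hkg' hH hP hodd
      omega
  · have := hk2 (by omega)
    omega

/-- the shifts `2, 6, 0` -/
def bb (n : ℕ) : ℕ := if n % 3 = 1 then 2 else if n % 3 = 2 then 6 else 0

theorem bb_add (n t : ℕ) : bb (n + 3 * t) = bb n := by
  unfold bb
  have : (n + 3 * t) % 3 = n % 3 := by omega
  rw [this]

theorem bb_even (n : ℕ) : bb n % 2 = 0 := by
  unfold bb
  split_ifs <;> rfl

/-- the window -/
def om (p : ℕ) : ℕ := if p = 3 then 3 else 3 * p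

/-- an index in a given class modulo three -/
theorem pick (C r c : ℕ) (hr : r.Prime) (hr3 : r ≠ 3) (hc : c < 3) :
    ∃ i, 1 ≤ i ∧ i ≤ 3 ∧ (C + i * (2 * r)) % 3 = c := by
  have h3 : r % 3 ≠ 0 := by
    intro h
    have : 3 ∣ r := Nat.dvd_of_mod_eq_zero h
    rcases (Nat.dvd_prime hr).1 this with h1 | h1 <;> omega
  have h4 : (C + 1 * (2 * r)) % 3 = c ∨ (C + 2 * (2 * r)) % 3 = c ∨ (C + 3 * (2 * r)) % 3 = c := by
    have h5 : r % 3 = 1 ∨ r % 3 = 2 := by omega
    have h6 : C % 3 = 0 ∨ C % 3 = 1 ∨ C % 3 = 2 := by omega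
    rcases h5 with h5 | h5 <;> rcases h6 with h6 | h6 | h6 <;> interval_cases c <;> omega
  rcases h4 with h | h | h
  · exact ⟨1, by norm_num, by norm_num, h⟩
  · exact ⟨2, by norm_num, by norm_num, h⟩
  · exact ⟨3, by norm_num, by norm_num, h⟩

theorem trip (N f : ℕ) (hN : 6 ≤ N) (s b : ℕ → ℕ)
    (hs : ∀ n, s n = n + bb n) (hb1 : b 1 = N - 6) (hf : 2 ≤ f)
    (hbf : b f = 0) (hpos : ∀ n, 1 ≤ n → n < f → 0 < b n)
    (H : ∀ n, 1 ≤ n → n < f → b (n + 1) = b n - Nat.gcd (b n) (s (n + 1))) :
    f + 5 ≤ N ∧ ∀ r, r.Prime → r ∣ (f + 1) * (f + 3) * (f + 7) → 19 * f + 75 ≤ 15 * N + 12 * r := by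
  have hfN : f + 5 ≤ N := by
    have := next_le s b 1 f (by omega) H hpos
    omega
  refine ⟨hfN, fun r hr hrd => ?_⟩
  have hr2 := hr.two_le
  obtain ⟨k, hk1, hkg, hodd, hkN, hk2⟩ : ∃ k, 1 ≤ k ∧ k ≤ f ∧ (b k + k + 1) % 2 = 1 ∧
      15 * (b k + k + 1) + 4 * k + 56 ≤ 15 * N ∧ (k = f → k = 2) := by
    rcases Nat.even_or_odd' N with ⟨M, hM | hM⟩
    · have h1 := H 1 le_rfl (by omega)
      have h2 : s 2 = 8 := by
        rw [hs]
        rfl
      norm_num at h1
      rw [h2, hb1] at h1
      have h3 : 2 ∣ Nat.gcd (N - 6) 8 := Nat.dvd_gcd (by omega) (by norm_num)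
      have h4 : 0 < Nat.gcd (N - 6) 8 := Nat.gcd_pos_of_pos_right _ (by norm_num)
      have h5 : 0 < b 1 := hpos 1 le_rfl (by omega)
      have h6 : Nat.gcd (N - 6) 8 ≤ N - 6 := Nat.gcd_le_left _ (by omega)
      exact ⟨2, by norm_num, hf, by omega, by omega, fun _ => rfl⟩
    · exact ⟨1, le_rfl, by omega, by omega, by omega, by omega⟩
  rcases Nat.lt_or_ge k f with hkg' | hkg'
  · have hO : ∀ n, n ≤ f → n % 2 = 1 → s n % 2 = 1 := by
      intro n _ h2
      have := bb_even n
      rw [hs n]
      omega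
    have hH : ∀ n, k ≤ n → n < f → b (n + 1) = b n - Nat.gcd (b n) (s (n + 1)) :=
      fun n h1 h2 => H n (by omega) h2
    have hP : ∀ n, k ≤ n → n < f → 0 < b n := fun n h1 h2 => hpos n (by omega) h2
    have hgo := par s b f k hO hH hP hodd f hkg le_rfl
    rw [hbf] at hgo
    obtain ⟨t, ht0, ht2, hrt, htg⟩ : ∃ t, 0 < t ∧ t ≤ 3 * r ∧ r ∣ t ∧ (t ≤ f → r ∣ s (f + 1 - t)) := by
      have hthree : r = 3 → ∃ t, 0 < t ∧ t ≤ 3 * r ∧ r ∣ t ∧ (t ≤ f → r ∣ s (f + 1 - t)) := by
        intro h3
        subst h3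
        refine ⟨3, by norm_num, by norm_num, dvd_rfl, fun h1 => ?_⟩
        have h4 : (f + 1) % 3 = 0 ∨ (f + 1) % 3 = 1 := by
          rcases (Nat.Prime.dvd_mul hr).1 hrd with h | h
          · rcases (Nat.Prime.dvd_mul hr).1 h with h | h <;> omega
          · omega
        rw [hs]
        unfold bb
        rcases h4 with h4 | h4
        · rw [if_neg (by omega), if_neg (by omega)]
          omega
        · rw [if_pos (by omega)]
          omega
      rcases eq_or_ne r 3 with h3 | h3
      · exact hthree h3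
      · have hgen : ∀ c v, c < 3 → r ∣ f + 1 + v → (∀ n, n % 3 = c → bb n = v) →
            ∃ t, 0 < t ∧ t ≤ 3 * r ∧ r ∣ t ∧ (t ≤ f → r ∣ s (f + 1 - t)) := by
          intro c v hc hv hbv
          obtain ⟨i, hi1, hi3, hi⟩ := pick (f + 1) r c hr h3 hc
          refine ⟨i * r, Nat.mul_pos (by omega) (by omega), Nat.mul_le_mul_right r hi3,
            dvd_mul_left _ _, fun h1 => ?_⟩
          have h5 : (f + 1 - i * r) % 3 = c := by
            rw [← hi]
            have h6 : f + 1 + i * (2 * r) = (f + 1 - i * r) + 3 * (i * r) := by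
              have : i * (2 * r) = 2 * (i * r) := by ring
              omega
            omega
          rw [hs, hbv _ h5]
          have h7 : f + 1 - i * r + v = f + 1 + v - i * r := by omega
          rw [h7]
          exact Nat.dvd_sub hv (dvd_mul_left _ _)
        rcases (Nat.Prime.dvd_mul hr).1 hrd with h | h
        · rcases (Nat.Prime.dvd_mul hr).1 h with h | h
          · exact hgen 0 0 (by norm_num) h (fun n hn => by
              unfold bb
              rw [if_neg (by omega), if_neg (by omega)])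
          · exact hgen 1 2 (by norm_num) h (fun n hn => by
              unfold bb
              rw [if_pos (by omega)])
        · exact hgen 2 6 (by norm_num) h (fun n hn => by
            unfold bb
            rw [if_neg (by omega), if_pos (by omega)])
    rcases Nat.lt_or_ge f t with h | h
    · omega
    · have k1 := coreW s b om 15 4 f t r (fun p hp => by
          have := hp.two_le
          unfold om
          split_ifs with h5
          · exact ⟨by rw [h5], by norm_num⟩
          · exact ⟨dvd_mul_left _ _, by omega⟩) (fun p x hp hx hpx => by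
          rw [hs] at hpx ⊢
          unfold om at hpx
          split_ifs at hpx with h5
          · have e : bb (x + 3) = bb x := bb_add x 1
            rw [e] at hpx
            subst h5
            omega
          · rw [bb_add] at hpx
            have e : x + 3 * p + bb x = (x + bb x) + 3 * p := by ring
            rw [e] at hpx
            exact (Nat.dvd_add_left (dvd_mul_left p 3)).1 hpx) hO (fun q w hq1 hq3 hq => by
          by_cases h5 : 3 ∣ q
          · have h6 := hq 3 Nat.prime_three h5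
            unfold om at h6
            rw [if_pos rfl] at h6
            omega
          · have h6 := hq _ (Nat.minFac_prime (by omega)) (Nat.minFac_dvd q)
            have h7 : q.minFac ≤ q := Nat.minFac_le (by omega)
            have h8 : q.minFac ≠ 3 := fun h => h5 (by rw [← h]; exact Nat.minFac_dvd q)
            unfold om at h6
            rw [if_neg h8] at h6
            omega) hr ht0 h hrt (htg h) hbf (f - k) k rfl hkg' hH hP hodd
      omega
  · have := hk2 (by omega)
    omega

end Pool.Agent.R892.GC
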