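import Pool.Agent.R892.GC.Pow

/-! # Growth of the zeros implies primality -/

set_option autoImplicit false

open Filter Topology

namespace Pool.Agent.R892.GC

theorem quad_large (θ : ℝ) (hθ : 4 / 7 < θ) (A B : ℕ) : ∃ N : ℕ, ∀ z z' : ℕ, N ≤ z →
    θ * (z : ℝ) ^ 2 ≤ z' → 4 * z ^ 2 + A * z + B < 7 * z' := by
  obtain ⟨N, hN⟩ := exists_nat_gt (((A : ℝ) + B) / (7 * θ - 4))
  refine ⟨N + 1, fun z z' hz h => ?_⟩
  have hd : 0 < 7 * θ - 4 := by linarith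
  have hzN : (N : ℝ) + 1 ≤ z := by exact_mod_cast hz
  have hN0 : (0 : ℝ) ≤ N := Nat.cast_nonneg N
  have h1 : (A : ℝ) + B < (7 * θ - 4) * z := by
    rw [div_lt_iff₀ hd] at hN
    nlinarith
  have hB : (0 : ℝ) ≤ B := Nat.cast_nonneg B
  have h2 : (4 : ℝ) * z ^ 2 + A * z + B < 7 * z' := by
    have h3 : ((A : ℝ) + B) * z < (7 * θ - 4) * z * z := mul_lt_mul_of_pos_right h1 (by linarith)
    have h4 : (B : ℝ) ≤ B * z := by nlinarith
    nlinarith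
  exact_mod_cast h2

theorem pow_large (θ : ℝ) (hθ : 4 / 7 < θ) (p : ℕ) (hp : 2 ≤ p) : ∃ K N : ℕ, 1 ≤ K ∧
    ∀ z z' : ℕ, N ≤ z → θ * (z : ℝ) ^ p ≤ z' →
      K * (4 * (z + 1) ^ p + 7 * z + 1) + 3 * z' ≤ K * (7 * z') ∧ K ^ 2 < z' ∧ (K + 1) ^ p ≤ z' := by
  have hd : 0 < 7 * θ - 4 := by linarith
  have hθ0 : 0 < θ := by linarith
  obtain ⟨K, hK⟩ := exists_nat_gt (6 * θ / (7 * θ - 4))
  have hK0 : (0 : ℝ) < K := lt_trans (by positivity) hK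
  have hK1 : 1 ≤ K := by exact_mod_cast hK0
  rw [div_lt_iff₀ hd] at hK
  have hc : Continuous (fun x : ℝ => 4 * (1 + x) ^ p + 8 * x) := by fun_prop
  have ht : Tendsto (fun n : ℕ => 4 * (1 + 1 / ((n : ℝ) + 1)) ^ p + 8 * (1 / ((n : ℝ) + 1))) atTop
      (𝓝 (4 * (1 + 0) ^ p + 8 * 0)) := (hc.tendsto 0).comp tendsto_one_div_add_atTop_nhds_zero_nat
  have hlt : 4 * (1 + (0 : ℝ)) ^ p + 8 * 0 < 4 + (7 * θ - 4) / 2 := by
    rw [add_zero, one_pow]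
    linarith
  obtain ⟨N1, hN1⟩ := (ht.eventually (gt_mem_nhds hlt)).exists_forall_of_atTop
  obtain ⟨N2, hN2⟩ := exists_nat_gt (((K : ℝ) + 1) ^ (p + 2) / θ)
  refine ⟨K, N1 + N2 + 1, hK1, fun z z' hz h => ?_⟩
  have hz1 : 1 ≤ z := by omega
  have hz1' : (1 : ℝ) ≤ z := by exact_mod_cast hz1
  have hz0 : (0 : ℝ) < z := by linarith
  have h1 := hN1 (z - 1) (by omega)
  have e1 : (((z - 1 : ℕ) : ℝ) + 1) = z := by
    rw [Nat.cast_sub hz1]
    push_cast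
    ring
  rw [e1] at h1
  have hzp : (z : ℝ) * z ≤ (z : ℝ) ^ p := by
    rw [← pow_two]
    exact pow_le_pow_right₀ hz1' hp
  have h2 : (4 : ℝ) * (z + 1) ^ p + 7 * z + 1 ≤ (4 + (7 * θ - 4) / 2) * (z : ℝ) ^ p := by
    have e2 : ((z : ℝ) + 1) ^ p = z ^ p * (1 + 1 / z) ^ p := by
      rw [← mul_pow]
      congr 1
      field_simp
    have e3 : (8 : ℝ) * z ≤ z ^ p * (8 * (1 / z)) := by
      rw [mul_one_div, mul_div_assoc', le_div_iff₀ hz0]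
      nlinarith
    have e4 : (z : ℝ) ^ p * (4 * (1 + 1 / z) ^ p + 8 * (1 / z)) ≤ z ^ p * (4 + (7 * θ - 4) / 2) :=
      mul_le_mul_of_nonneg_left h1.le (by positivity)
    rw [e2]
    nlinarith
  have hN2' : ((K : ℝ) + 1) ^ (p + 2) < θ * z := by
    rw [div_lt_iff₀ hθ0] at hN2
    have : (N2 : ℝ) ≤ z := by
      have : N2 ≤ z := by omega
      exact_mod_cast this
    nlinarith
  have hzz : (z : ℝ) ≤ (z : ℝ) ^ p := le_self_pow₀ hz1' (by omega)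
  have hbig : ((K : ℝ) + 1) ^ (p + 2) < z' := by
    have := mul_le_mul_of_nonneg_left hzz hθ0.le
    linarith
  refine ⟨?_, ?_, ?_⟩
  · have h3 : (K : ℝ) * (4 * (z + 1) ^ p + 7 * z + 1) + 3 * z' ≤ K * (7 * z') := by
      have h4 : (K : ℝ) * (4 * (z + 1) ^ p + 7 * z + 1) ≤ K * ((4 + (7 * θ - 4) / 2) * (z : ℝ) ^ p) :=
        mul_le_mul_of_nonneg_left h2 hK0.le
      have h5 : (K : ℝ) * ((4 + (7 * θ - 4) / 2) * (z : ℝ) ^ p) * θ ≤
          K * (4 + (7 * θ - 4) / 2) * z' := by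
        have := mul_le_mul_of_nonneg_left h (show 0 ≤ K * (4 + (7 * θ - 4) / 2) by positivity)
        linarith
      have h6 : (K : ℝ) * ((4 + (7 * θ - 4) / 2) * (z : ℝ) ^ p) * θ ≤ (K * (7 * z') - 3 * z') * θ := by
        refine h5.trans ?_
        have hz'0 : (0 : ℝ) ≤ z' := Nat.cast_nonneg z'
        have e5 : (K * (7 * (z' : ℝ)) - 3 * z') * θ - K * (4 + (7 * θ - 4) / 2) * z' =
          z' * ((K * (7 * θ - 4) - 6 * θ) / 2) := by ring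
        have e6 : 0 ≤ (z' : ℝ) * ((K * (7 * θ - 4) - 6 * θ) / 2) := mul_nonneg hz'0 (by linarith)
        linarith
      have h7 := le_of_mul_le_mul_right h6 hθ0
      linarith
    exact_mod_cast h3
  · have h3 : (K : ℝ) ^ 2 < z' := by
      refine lt_of_le_of_lt ?_ hbig
      calc (K : ℝ) ^ 2 ≤ ((K : ℝ) + 1) ^ 2 := pow_le_pow_left₀ hK0.le (by linarith) 2
        _ ≤ ((K : ℝ) + 1) ^ (p + 2) := pow_le_pow_right₀ (by linarith) (by omega)
    exact_mod_cast h3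
  · have h3 : ((K : ℝ) + 1) ^ p ≤ z' := by
      refine le_of_lt (lt_of_le_of_lt ?_ hbig)
      exact pow_le_pow_right₀ (by linarith) (by omega)
    exact_mod_cast h3

end Pool.Agent.R892.GC
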