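import Pool.Agent.R892.GC.Two

/-! # The recursion with `n ^ p - 1` -/

set_option autoImplicit false

namespace Pool.Agent.R892.GC

/-- `q = ((n + 1) ^ p - 1) / n` -/
theorem q_mul (p n : ℕ) : n * (((n + 1) ^ p - 1) / n) = (n + 1) ^ p - 1 := by
  apply Nat.mul_div_cancel'
  have := Nat.sub_dvd_pow_sub_pow (n + 1) 1 p
  simpa using this

theorem omega_le (p n q K : ℕ) (hK : 1 ≤ K) (hn : K ≤ n) (hq0 : q ≠ 0) (hq : n * q < (n + 1) ^ p)
    (hr : ∀ r, r.Prime → r ∣ q → n ≤ K * r) (h4 : (K + 1) ^ p ≤ n) : q.primeFactorsList.length < p := by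
  by_contra hcon
  push Not at hcon
  obtain ⟨B, hB⟩ : ∃ B, B = (n + K - 1) / K := ⟨_, rfl⟩
  have hBn : n ≤ K * B := by
    have h1 := Nat.div_add_mod (n + K - 1) K
    have h2 := Nat.mod_lt (n + K - 1) hK
    rw [← hB] at h1
    omega
  have hB1 : 1 ≤ B := by
    rcases Nat.eq_zero_or_pos B with h | h
    · rw [h] at hBn
      omega
    · exact h
  have h1 : B ^ q.primeFactorsList.length ≤ q := by
    have := List.pow_card_le_prod q.primeFactorsList B (fun r hr' => by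
      have k1 := hr r (Nat.prime_of_mem_primeFactorsList hr') (Nat.dvd_of_mem_primeFactorsList hr')
      rw [hB]
      have h5 : n + K - 1 < K * (r + 1) := by
        rw [mul_add]
        omega
      exact Nat.lt_succ_iff.1 (Nat.div_lt_of_lt_mul h5))
    rwa [Nat.prod_primeFactorsList hq0] at this
  have h2 : B ^ p ≤ q := (Nat.pow_le_pow_right hB1 hcon).trans h1
  have h3 : n ^ p ≤ K ^ p * B ^ p := by
    rw [← mul_pow]
    exact Nat.pow_le_pow_left hBn p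
  have h4' : K ^ p * (n + 1) ^ p ≤ (K + 1) ^ p * n ^ p := by
    rw [← mul_pow, ← mul_pow]
    exact Nat.pow_le_pow_left (by nlinarith) p
  have h5 : n ^ p * n < n ^ p * n := by
    calc n ^ p * n ≤ (K ^ p * B ^ p) * n := Nat.mul_le_mul_right _ h3
      _ ≤ (K ^ p * q) * n := Nat.mul_le_mul_right _ (Nat.mul_le_mul_left _ h2)
      _ = K ^ p * (n * q) := by ring
      _ < K ^ p * (n + 1) ^ p := Nat.mul_lt_mul_of_pos_left hq (by positivity)
      _ ≤ (K + 1) ^ p * n ^ p := h4'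
      _ ≤ n * n ^ p := Nat.mul_le_mul_right _ h4
      _ = n ^ p * n := by ring
  exact lt_irrefl _ h5

/-- consecutive zeros of `a (n) = |a (n - 1) - gcd (a (n - 1), n ^ p - 1)|` -/
theorem main_B (p : ℕ) (hp : 2 ≤ p) (a : ℕ → ℕ)
    (h : ∀ n, 1 ≤ n → a (n + 1) = Int.natAbs ((a n : ℤ) -
      ((Nat.gcd (a n) ((n + 1) ^ p - 1) : ℕ) : ℤ))) (z z' : ℕ) (hz1 : 1 ≤ z)
    (hz : a z = 0) (hzz : z < z') (hz' : a z' = 0) (hno : ∀ n, z < n → n < z' → a n ≠ 0) :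
    z' ≤ (z + 1) ^ p + z ∧
    (∀ r, r.Prime → r ∣ (z' + 1) ^ p - 1 → 7 * z' ≤ 4 * (z + 1) ^ p + 7 * z + 1 + 3 * r) := by
  have hsub : ∀ x g : ℕ, g ≤ x → Int.natAbs ((x : ℤ) - (g : ℤ)) = x - g := by
    intro x g hg
    omega
  have hsub0 : ∀ g : ℕ, Int.natAbs (((0 : ℕ) : ℤ) - (g : ℤ)) = g := by
    intro g
    omega
  have H : ∀ n, z < n → n < z' → a (n + 1) = a n - Nat.gcd (a n) ((fun x => x ^ p - 1) (n + 1)) := by
    intro n h1 h2
    rw [h n (by omega)]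
    exact hsub _ _ (Nat.gcd_le_left _ (Nat.pos_of_ne_zero (hno n h1 h2)))
  have h1 : a (z + 1) = (fun x => x ^ p - 1) (z + 1) := by
    rw [h z hz1, hz, Nat.gcd_zero_left]
    exact hsub0 _
  have hpow : z + 1 < (z + 1) ^ p := by
    calc z + 1 < (z + 1) * (z + 1) := by nlinarith
      _ = (z + 1) ^ 2 := by ring
      _ ≤ (z + 1) ^ p := Nat.pow_le_pow_right (by omega) hp
  have hodd : ¬ 2 ∣ (fun x => x ^ p - 1) (a (z + 1) + (z + 1) + 1) := by
    rw [h1]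
    have e1 : (fun x => x ^ p - 1) (z + 1) + (z + 1) + 1 = (z + 1) ^ p + (z + 1) := by
      show (z + 1) ^ p - 1 + (z + 1) + 1 = _
      omega
    rw [e1]
    show ¬ 2 ∣ ((z + 1) ^ p + (z + 1)) ^ p - 1
    have e2 : Even ((z + 1) ^ p + (z + 1)) := by
      rw [Nat.even_add, Nat.even_pow' (by omega)]
    have e3 : 2 ∣ ((z + 1) ^ p + (z + 1)) ^ p := dvd_pow e2.two_dvd (by omega)
    have e4 : 1 ≤ ((z + 1) ^ p + (z + 1)) ^ p := Nat.one_le_pow _ _ (by omega)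
    omega
  obtain ⟨k1, k2⟩ := consec (fun x => x ^ p - 1) a (per_B p) z z' hzz H h1
    (by show 0 < (z + 1) ^ p - 1; omega) hodd hz' hno
  have k1' : z' ≤ (z + 1) ^ p - 1 + z + 1 := k1
  refine ⟨by omega, fun r hr hrz => ?_⟩
  have k3 : 7 * z' ≤ 4 * ((z + 1) ^ p - 1) + 7 * z + 5 + 3 * r := k2 r hr hrz
  omega

/-- large gaps give primes -/
theorem prime_B (p : ℕ) (hp : 2 ≤ p) (a : ℕ → ℕ)
    (h : ∀ n, 1 ≤ n → a (n + 1) = Int.natAbs ((a n : ℤ) -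
      ((Nat.gcd (a n) ((n + 1) ^ p - 1) : ℕ) : ℤ))) (z z' K : ℕ) (hz1 : 1 ≤ z) (hK : 1 ≤ K)
    (hz : a z = 0) (hzz : z < z') (hz' : a z' = 0) (hno : ∀ n, z < n → n < z' → a n ≠ 0)
    (hbig : K * (4 * (z + 1) ^ p + 7 * z + 1) + 3 * z' ≤ K * (7 * z')) :
    (∀ r, r.Prime → r ∣ (z' + 1) ^ p - 1 → z' ≤ K * r) ∧
    (K ^ 2 < z' → z'.Prime) ∧
      ((K + 1) ^ p ≤ z' → (((z' + 1) ^ p - 1) / z').primeFactorsList.length < p) := by
  obtain ⟨k1, k2⟩ := main_B p hp a h z z' (by omega) hz hzz hz' hno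
  have hqm := q_mul p z'
  obtain ⟨q, hq⟩ : ∃ q, q = ((z' + 1) ^ p - 1) / z' := ⟨_, rfl⟩
  rw [← hq] at hqm ⊢
  have hthird : ∀ r, r.Prime → r ∣ (z' + 1) ^ p - 1 → z' ≤ K * r := by
    intro r hr hrd
    have h1 := Nat.mul_le_mul_left K (k2 r hr hrd)
    have h2 : K * (4 * (z + 1) ^ p + 7 * z + 1 + 3 * r) =
      K * (4 * (z + 1) ^ p + 7 * z + 1) + 3 * (K * r) := by ring
    omega
  refine ⟨hthird, fun hK2 => ?_, fun h4 => ?_⟩
  · by_contra hnp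
    have hm := Nat.minFac_sq_le_self (show 0 < z' by omega) hnp
    have hmp := Nat.minFac_prime (show z' ≠ 1 by omega)
    have h1 := hthird z'.minFac hmp (by rw [← hqm]; exact (Nat.minFac_dvd z').mul_right _)
    have h2 := hmp.two_le
    have h3 : z'.minFac ≤ K := by
      have : z'.minFac * z'.minFac ≤ K * z'.minFac := by nlinarith
      exact Nat.le_of_mul_le_mul_right this (by omega)
    nlinarith
  · have hq0 : q ≠ 0 := by
      intro h0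
      rw [h0, mul_zero] at hqm
      have : 1 < (z' + 1) ^ p := Nat.one_lt_pow (by omega) (by omega)
      omega
    have hpos : 1 ≤ (z' + 1) ^ p := Nat.one_le_pow _ _ (by omega)
    have hKz : K ≤ z' := by
      have : K + 1 ≤ (K + 1) ^ p := Nat.le_self_pow (by omega) _
      omega
    exact omega_le p z' q K hK hKz hq0 (by omega)
      (fun r hr hrq => hthird r hr (by rw [← hqm]; exact hrq.mul_left _)) h4

/-- the case `p = 2` -/
theorem two_B (a : ℕ → ℕ)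
    (h : ∀ n, 1 ≤ n → a (n + 1) = Int.natAbs ((a n : ℤ) -
      ((Nat.gcd (a n) ((n + 1) ^ 2 - 1) : ℕ) : ℤ))) (z z' : ℕ) (hz1 : 1 ≤ z)
    (hz : a z = 0) (hzz : z < z') (hz' : a z' = 0) (hno : ∀ n, z < n → n < z' → a n ≠ 0)
    (hbig : 4 * z ^ 2 + 18 * z + 11 < 7 * z') : z'.Prime ∧ (z' + 2).Prime := by
  obtain ⟨k1, k2⟩ := main_B 2 le_rfl a h z z' hz1 hz hzz hz' hno
  have e : (z' + 1) ^ 2 - 1 = z' * (z' + 2) := by
    have : (z' + 1) ^ 2 = z' * (z' + 2) + 1 := by ring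
    omega
  rw [e] at k2
  have hs : z' + 2 ≤ (z + 2) ^ 2 := by nlinarith
  have hfin : ∀ q, 2 ≤ q → q ≤ z' + 2 → q ∣ z' * (z' + 2) → q.Prime := by
    intro q hq2 hq3 hq4
    by_contra hnp
    obtain ⟨r, hr, hrq, hrs⟩ := small_factor q (z + 2) hq2 hnp (hq3.trans hs)
    have := k2 r hr (hrq.trans hq4)
    nlinarith
  exact ⟨hfin _ (by omega) (by omega) (dvd_mul_right _ _), hfin _ (by omega) le_rfl (dvd_mul_left _ _)⟩

theorem zeros_B (p : ℕ) (a : ℕ → ℕ)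
    (h : ∀ n, 1 ≤ n → a (n + 1) = Int.natAbs ((a n : ℤ) -
      ((Nat.gcd (a n) ((n + 1) ^ p - 1) : ℕ) : ℤ))) (M : ℕ) : ∃ n, M ≤ n ∧ a n = 0 := by
  refine zeros (fun x => x ^ p - 1) a 1 ?_ M
  intro n h1 h2
  have h3 : Nat.gcd (a n) ((n + 1) ^ p - 1) ≤ a n := Nat.gcd_le_left _ h2
  rw [h n h1]
  omega

end Pool.Agent.R892.GC
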